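import Mathlib
import Pool.Agent.H247R2.QAND.Trade

set_option autoImplicit false

/-!
# Coefficients of representations of `AND_n` by quadratic phases

`Pool.Agent.H247R2.QAND.AND n` is the `{0,1}`-valued function `AND_n`, and `IsRep n m q c` says that
`q 0, …, q (m-1)` are polynomials over `𝔽₂` of total degree at most `2` with
`AND_n(x) = ∑ i, c i * (-1)^{q_i(x)}` for all `x`.
-/

namespace Pool.Agent.Results.MP_a387ab_co.CoefficientTradeoff

open Pool.Agent.H247R2.QAND

/-- (1) The least number of quadratic phases representing `AND_n` with coefficients of equal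
absolute value is exactly `2 ^ ⌈n/2⌉`.
(2) Whenever given phases represent `AND_n` with some real coefficients, they represent it with
coefficients `t * a i` for integers `a i` and a real `t`.
(3) In a representation with coefficients `t * a i`, `a i` integers, one has
`∑ |a i| ≥ 2 ^ ⌈n/2⌉`, and even `2 * ∑_{i ∉ T} |a i| ≥ 2 ^ ⌈n/2⌉` for every set `T` of fewer than
`n/2` indices. -/
theorem result :
    (∀ n : ℕ, IsLeast {m : ℕ | ∃ (q : Fin m → MvPolynomial (Fin n) (ZMod 2))
      (s : Fin m → ℤ) (t : ℝ), (∀ i, |s i| = 1) ∧ IsRep n m q (fun i => t * s i)}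
      (2 ^ ((n + 1) / 2))) ∧
    (∀ (n m : ℕ) (q : Fin m → MvPolynomial (Fin n) (ZMod 2)) (c : Fin m → ℝ), IsRep n m q c →
      ∃ (a : Fin m → ℤ) (t : ℝ), IsRep n m q (fun i => t * a i)) ∧
    (∀ (n m : ℕ) (q : Fin m → MvPolynomial (Fin n) (ZMod 2)) (a : Fin m → ℤ) (t : ℝ),
      IsRep n m q (fun i => t * a i) →
        (2 : ℤ) ^ ((n + 1) / 2) ≤ ∑ i, |a i| ∧
        ∀ T : Finset (Fin m), 2 * T.card < n →
          (2 : ℤ) ^ ((n + 1) / 2) ≤ 2 * ∑ i ∈ Tᶜ, |a i|) :=
  ⟨least, fun _ _ q c h => commensurable q c h, fun _ _ q a t h => trade q a t h⟩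

end Pool.Agent.Results.MP_a387ab_co.CoefficientTradeoff
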