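import Mathlib
import Pool.Agent.H247R2.QAND.Upper

set_option autoImplicit false

/-!
# Representing `AND_n` by fewer than `2 ^ (n / 2)` quadratic phases

`AND_10` is a combination of `24` quadratic phases, hence `AND_n` is a combination of
`24 ^ ⌊n/10⌋ * 2 ^ ⌈(n mod 10)/2⌉` of them.
-/

namespace Pool.Agent.Results.MP_a387ab_co.UpperBound

open Pool.Agent.H247R2.QAND

/-- The least number `M(n)` of quadratic phases whose real span contains `AND_n` is at most
`24 ^ ⌊n/10⌋ * 2 ^ ⌈(n mod 10)/2⌉`. -/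
theorem result (n : ℕ) :
    ∃ m : ℕ, IsLeast {m : ℕ | ∃ (q : Fin m → MvPolynomial (Fin n) (ZMod 2)) (c : Fin m → ℝ),
      IsRep n m q c} m ∧ m ≤ 24 ^ (n / 10) * 2 ^ ((n % 10 + 1) / 2) := by
  classical
  have h : ∃ m, m ∈ {m : ℕ | ∃ (q : Fin m → MvPolynomial (Fin n) (ZMod 2)) (c : Fin m → ℝ),
      IsRep n m q c} := ⟨_, rep_all n⟩
  exact ⟨Nat.find h, ⟨Nat.find_spec h, fun k hk => Nat.find_min' h hk⟩, Nat.find_min' h (rep_all n)⟩

end Pool.Agent.Results.MP_a387ab_co.UpperBound
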